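import Mathlib
import Pool.Agent.Run7.h645.LoopLemma

/-!
A local loop lemma: a symmetric relation `R` on an arbitrary set which contains an odd closed walk
through `a`, and which is compatible with an idempotent operation `f` of arbitrary finite arity
under which the neighbourhood of `a` absorbs `{a}`, contains a loop.
-/

namespace Pool.Agent.Results.MP_511665_al.LocalLoop

universe u

/-- `a^{+R} = {b | (a, b) ∈ R}` -/
def outNbr {A : Type u} (R : A → A → Prop) (a : A) : Set A := {b | R a b}

/-- `B` absorbs `C` with respect to the `n`-ary operation `f`: replacing any one argument of `f`
by an element of `C`, while all arguments `b i` are in `B`, gives a value in `B`. -/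
def Absorbs {A : Type u} {n : ℕ} (f : (Fin n → A) → A) (B C : Set A) : Prop :=
  ∀ (j : Fin n) (b : Fin n → A) (c : A),
    (∀ i, b i ∈ B) → c ∈ C → f (Function.update b j c) ∈ B

/-- argument tuple: `v` on `I`, `s` at `j`, `u` elsewhere -/
def arg {A : Type u} {n : ℕ} (I : Finset (Fin n)) (j : Fin n) (s u v : A) : Fin n → A :=
  fun i => if i ∈ I then v else if i = j then s else u

open Run7.h645.Loop

theorem result {A : Type u} {n : ℕ} (R : A → A → Prop) (hsymm : ∀ x y, R x y → R y x)
    (f : (Fin n → A) → A)
    (hidem : ∀ x : A, f (fun _ => x) = x)
    (hcomp : ∀ x y : Fin n → A, (∀ i, R (x i) (y i)) → R (f x) (f y))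
    (l : ℕ) (hodd : Odd l) (c : ℕ → A)
    (hwalk : ∀ i, i < l → R (c i) (c (i + 1))) (hclosed : c l = c 0)
    (habs : Absorbs f (outNbr R (c 0)) {c 0}) :
    ∃ x, R x x := by
  classical
  obtain ⟨q, hq⟩ := hodd
  by_cases hq0 : q = 0
  · subst hq0
    have h1 : l = 1 := by omega
    subst h1
    have h := hwalk 0 (by omega)
    have e : c (0 + 1) = c 0 := hclosed
    rw [e] at h
    exact ⟨_, h⟩
  set a := c 0 with ha
  have hab : R a (c 1) := hwalk 0 (by omega)
  have hba : R (c 1) a := hsymm _ _ hab
  obtain ⟨H, hH⟩ : ∃ H, l = H + 2 := ⟨l - 2, by omega⟩
  have hHodd : ¬ Even H := by
    rw [Nat.even_iff]; omega
  have hH1 : 1 ≤ H := by omega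
  have haX : a ∈ X R a (H + 1) := by
    have := X_even hab hba q
    have e : 2 * q = H + 1 := by omega
    rwa [e] at this
  -- the inductive statement
  have main : ∀ I : Finset (Fin n), ∃ z ∈ X R a (H + 1), ∀ t : Fin n → A,
      (∀ i ∈ I, t i = z) → (∀ i, i ∉ I → R (t i) a) → R (f t) z := by
    intro I
    induction I using Finset.induction_on with
    | empty =>
      refine ⟨a, haX, fun t _ ht => ?_⟩
      have h := hcomp t (fun _ => a) (fun i => ht i (by simp))
      rwa [hidem] at h
    | insert j I hj ih =>
      obtain ⟨z, hz, hst⟩ := ih
      obtain ⟨zc, hzc, hzadj, hz0⟩ := chain hsymm H z hz
      -- the ternary operation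
      have hFR : ∀ s s' u u' v v', R s s' → R u u' → R v v' →
          R (f (arg I j s u v)) (f (arg I j s' u' v')) := by
        intro s s' u u' v v' h1 h2 h3
        apply hcomp
        intro i
        unfold arg
        by_cases hi : i ∈ I
        · simp only [hi, if_true]; exact h3
        · by_cases hij : i = j
          · simp only [hij, if_true]
            rw [if_neg hj, if_neg hj]
            exact h1
          · simp only [hi, hij, if_false]; exact h2
      have hFid : f (arg I j a a a) = a := by
        have : arg I j a a a = fun _ => a := by
          funext i
          unfold arg
          by_cases hi : i ∈ I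
          · simp [hi]
          · simp [hi]
        rw [this, hidem]
      have hFa : ∀ u v, R a u → R a v → R a (f (arg I j a u v)) := by
        intro u v hu hv
        have h := habs j (fun i => if i ∈ I then v else u) a
          (fun i => by
            show R a (if i ∈ I then v else u)
            by_cases hi : i ∈ I
            · rw [if_pos hi]; exact hv
            · rw [if_neg hi]; exact hu) rfl
        have e : Function.update (fun i => if i ∈ I then v else u) j a = arg I j a u v := by
          funext i
          unfold arg
          by_cases hij : i = j
          · subst hij
            rw [Function.update_self, if_neg hj, if_pos rfl]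
          · rw [Function.update_of_ne hij]
            by_cases hi : i ∈ I
            · simp [hi]
            · simp [hi, hij]
        rw [e] at h
        exact h
      obtain ⟨z1, x, v, hz1X, hz1, hz1x, hz1v⟩ :=
        key (R := R) (a := a) hsymm (fun s u v => f (arg I j s u v)) hFR hFa hFid H hH1
          (fun s => if Even s then c 1 else a)
          (fun ℓ k => if Even k then (if Even ℓ then c 1 else a) else c (H + 1 - ℓ))
          zc
          (by
            intro s
            by_cases hs : Even s
            · right; simp only [hs, if_true]; exact hab
            · left; simp only [hs, if_false])
          (by simp only [hHodd, if_false])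
          (by
            intro s
            by_cases hs : Even s
            · have hs' : ¬ Even (s + 1) := by
                rw [Nat.even_add_one]; simpa using hs
              simp only [hs, hs', if_true, if_false]; exact hab
            · have hs' : Even (s + 1) := by
                rw [Nat.even_add_one]; exact hs
              simp only [hs, hs', if_true, if_false]; exact hba)
          (by
            intro k
            by_cases hk : Even k
            · simp only [hk, if_true, Even.zero]; exact hab
            · simp only [hk, if_false]
              have h := hwalk (H + 1) (by omega)
              have e : c (H + 1 + 1) = a := by rw [← hclosed, hH]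
              rw [e] at h
              exact hsymm _ _ h)
          (by
            intro ℓ k hℓ
            by_cases hk : Even k
            · simp only [hk, if_true]
              by_cases hs : Even ℓ
              · have hs' : ¬ Even (ℓ + 1) := by
                  rw [Nat.even_add_one]; simpa using hs
                simp only [hs, hs', if_true, if_false]; exact hab
              · have hs' : Even (ℓ + 1) := by
                  rw [Nat.even_add_one]; exact hs
                simp only [hs, hs', if_true, if_false]; exact hba
            · simp only [hk, if_false]
              have h := hwalk (H + 1 - (ℓ + 1)) (by omega)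
              have e : H + 1 - (ℓ + 1) + 1 = H + 1 - ℓ := by omega
              rw [e] at h
              exact h)
          (by
            intro k
            have e : H + 1 - H = 1 := by omega
            by_cases hk : Even k
            · have hs' : ¬ Even (k + 1) := by
                rw [Nat.even_add_one]; simpa using hk
              simp only [hk, hs', hHodd, if_true, if_false, e]; exact hba
            · have hs' : Even (k + 1) := by
                rw [Nat.even_add_one]; exact hk
              simp only [hk, hs', hHodd, if_true, if_false, e]; exact hab)
          (by
            have e : H + 1 - H = 1 := by omega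
            have h1 : ¬ Even 1 := by decide
            simp only [h1, if_false, e]; exact hba)
          hz0 hzadj
          (by
            intro s u hs hu
            rw [hzc]
            apply hst
            · intro i hi
              unfold arg
              rw [if_pos hi]
            · intro i hi
              unfold arg
              rw [if_neg hi]
              by_cases hij : i = j
              · rw [if_pos hij]; exact hs
              · rw [if_neg hij]; exact hu)
      -- one more step
      have hWHH : (if Even H then (if Even H then c 1 else a) else c (H + 1 - H)) = c 1 := by
        rw [if_neg hHodd]
        congr 1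
        omega
      simp only [hWHH] at hz1
      set t2 : Fin n → A := fun i => if i ∈ insert j I then z1 else a with ht2
      have hR2 : R (f t2) z1 := by
        rw [hz1]
        apply hcomp
        intro i
        rw [ht2]
        unfold arg
        by_cases hi : i ∈ I
        · simp only [Finset.mem_insert, hi, or_true, if_true]
          exact hz1v
        · by_cases hij : i = j
          · simp only [Finset.mem_insert, hij, true_or, if_true]
            rw [if_neg hj]
            exact hz1x
          · simp only [Finset.mem_insert, hi, hij, or_self, if_false]
            exact hab
      refine ⟨f t2, ?_, ?_⟩
      · apply X_closed hidem hcomp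
        intro i
        rw [ht2]
        by_cases hi : i ∈ insert j I
        · simp only [hi, if_true]; exact hz1X
        · simp only [hi, if_false]; exact haX
      · intro t ht1 ht3
        apply hcomp
        intro i
        rw [ht2]
        by_cases hi : i ∈ insert j I
        · simp only [hi, if_true]
          rw [ht1 i hi]
          exact hR2
        · simp only [hi, if_false]
          exact ht3 i hi
  obtain ⟨z, _, hz⟩ := main Finset.univ
  have h := hz (fun _ => z) (fun _ _ => rfl) (fun i hi => absurd (Finset.mem_univ i) hi)
  rw [hidem] at h
  exact ⟨z, h⟩

end Pool.Agent.Results.MP_511665_al.LocalLoop
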